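import Pool.Agent.H467R2.Aug.AllB
import Pool.Agent.H467R2.Del.PMD
import Pool.Agent.H467R2.Del.NPMb
import Pool.Agent.H467R2.Del.DST
import Pool.Agent.H467R2.Del.DUP
import Pool.Agent.H467R2.Del.DFIN

/-!
# MP_60abc6_co, Q2: the range `n ≤ 2 l + 1`
-/

set_option autoImplicit false

namespace Pool.Agent.Results.MP_60abc6_co.EdgeDense

/-- The edge-connectivity `λ(G)`: the least number of edges whose deletion leaves a disconnected
graph (and `0` if there is no such number, i.e. for the one-vertex graph). -/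
noncomputable def lam {V : Type*} (G : SimpleGraph V) : ℕ :=
  sInf {m | ∃ F : Finset (Sym2 V), (F : Set (Sym2 V)) ⊆ G.edgeSet ∧ F.card = m ∧
    ¬ (G.deleteEdges (F : Set (Sym2 V))).Connected}

/-- every `k`-edge-connected graph of order `n` has a set of `e` edges whose deletion leaves an
`l`-edge-connected graph -/
def Works (n k l e : ℕ) : Prop :=
  ∀ G : SimpleGraph (Fin n), k ≤ lam G → ∃ F : Finset (Sym2 (Fin n)),
    (F : Set (Sym2 (Fin n))) ⊆ G.edgeSet ∧ F.card = e ∧
      l ≤ lam (G.deleteEdges (F : Set (Sym2 (Fin n))))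

/-- `e_λ(n; k, l) = ⌈k n / 2⌉ - ⌈l n / 2⌉` for `n ≤ 2 l + 1`. -/
theorem result (n k l : ℕ) (hl : 1 ≤ l) (hlk : l < k) (hkn : k < n) (h : n ≤ 2 * l + 1) :
    IsGreatest {e | Works n k l e} ((n * k + 1) / 2 - (n * l + 1) / 2) := by
  have hPMD := H467Del.t_PMD
  have hDST := H467Del.t_DST hPMD (H467Del.t_NPMb hPMD) H467Aug.t_BAS
  exact H467Del.t_DFIN (H467Del.t_DUP hDST) H467Aug.all_CHA H467Aug.t_CUT H467Aug.all_EX
    H467Aug.t_BAS n k l hl hlk hkn h

end Pool.Agent.Results.MP_60abc6_co.EdgeDense
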