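import Pool.Agent.H467R2.Aug.BAS
import Pool.Agent.H467R2.Del.KCH
import Pool.Agent.H467R2.Del.GM
import Pool.Agent.H467R2.Del.KBNb
import Pool.Agent.H467R2.Del.KST
import Pool.Agent.H467R2.Del.KUP
import Pool.Agent.H467R2.Del.KFIN

/-!
# MP_60abc6_co, Q1: the range `4 (n - l) ^ 3 ≤ n`
-/

set_option autoImplicit false

namespace Pool.Agent.Results.MP_60abc6_co.VertexDense

/-- The vertex-connectivity `κ(G)`: the least number of vertices whose deletion leaves a
disconnected graph or at most one vertex. -/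
noncomputable def kap {V : Type} [Fintype V] (G : SimpleGraph V) : ℕ :=
  sInf {m | ∃ S : Finset V, S.card = m ∧
    (¬ (G.induce {v | v ∉ S}).Connected ∨ Fintype.card V ≤ S.card + 1)}

/-- every `k`-connected graph of order `n` has a set of `e` edges whose deletion leaves an
`l`-connected graph -/
def Works (n k l e : ℕ) : Prop :=
  ∀ G : SimpleGraph (Fin n), k ≤ kap G → ∃ F : Finset (Sym2 (Fin n)),
    (F : Set (Sym2 (Fin n))) ⊆ G.edgeSet ∧ F.card = e ∧
      l ≤ kap (G.deleteEdges (F : Set (Sym2 (Fin n))))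

/-- `e_κ(n; k, l) = ⌈k n / 2⌉ - ⌈l n / 2⌉` for `4 (n - l) ^ 3 ≤ n`. -/
theorem result (n k l : ℕ) (hl : 1 ≤ l) (hlk : l < k) (hkn : k < n)
    (h : 4 * (n - l) ^ 3 ≤ n) :
    IsGreatest {e | Works n k l e} ((n * k + 1) / 2 - (n * l + 1) / 2) :=
  H467Del.t_KFIN (H467Del.t_KUP (H467Del.t_KST H467Del.t_GM H467Del.t_KBNb H467Aug.t_BAS))
    H467Del.t_KCH H467Aug.t_BAS n k l hl hlk hkn h

end Pool.Agent.Results.MP_60abc6_co.VertexDense
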